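import Pool.Agent.Lib.MP_81b71e_G.Main

/-!
# Complemented modular algebraic lattices

Let `L` be a complemented modular algebraic lattice (the lattice of subspaces of a projective
geometry, possibly reducible and of infinite dimension). The pair `(L, L₂)` is isomorphic to
`(Qord A, Con A)` for some algebra `A` if and only if `L₂` is the set of fixed points of an
involutive automorphism of `L` which fixes every line with at least three points.
-/

namespace Pool.Agent.Results.MP_81b71e_al.ComplementedModular

open Pool.Agent.Lib.MP_81b71e_al

universe u

/-- `r` is the join of two atoms and contains at least three atoms. -/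
def ThickLine {L : Type u} [Lattice L] [OrderBot L] (r : L) : Prop :=
  ∃ a b c : L, IsAtom a ∧ IsAtom b ∧ IsAtom c ∧ a ≠ b ∧ a ≠ c ∧ b ≠ c ∧ r = a ⊔ b ∧ c ≤ r

theorem result (L : Type u) [CompleteLattice L] [IsCompactlyGenerated L] [IsModularLattice L]
    [ComplementedLattice L] (L₂ : Set L) :
    Realizable L L₂ ↔ ∃ θ : L ≃o L, (∀ x, θ (θ x) = x) ∧ (∀ r, ThickLine r → θ r = r) ∧
      L₂ = {x | θ x = x} :=
  MP81G.complemented_modular L L₂

end Pool.Agent.Results.MP_81b71e_al.ComplementedModular
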