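import Pool.Agent.Lib.MP_81b71e_al.Diag

/-!
# The diagonal of a square

For a finite lattice `L` the pair consisting of `L × L` and its diagonal is isomorphic to
`(Qord A, Con A)` for some algebra `A` if and only if `L` is distributive. So the obvious necessary
condition (the second lattice is the fixed set of an involutive automorphism of the first one) is
not sufficient.
-/

set_option linter.style.haveILetI false

namespace Pool.Agent.Results.MP_81b71e_al.DiagonalPair

open Pool.Agent.Lib.MP_81b71e_al

universe u

theorem result (L : Type u) [Lattice L] [BoundedOrder L] [Finite L] :
    Realizable (L × L) {p : L × L | p.1 = p.2} ↔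
      ∀ x y z : L, x ⊓ (y ⊔ z) = (x ⊓ y) ⊔ (x ⊓ z) := by
  constructor
  · exact distrib_of_realizable
  · intro h
    letI iD : DistribLattice L := DistribLattice.ofInfSupLe (fun x y z => (h x y z).le)
    letI iF : Fintype L := Fintype.ofFinite L
    letI iC : CompleteDistribLattice L := Fintype.toCompleteDistribLattice L
    haveI iW : WellFoundedGT L := Finite.to_wellFoundedGT
    haveI iG : IsCompactlyGenerated L := CompleteLattice.isCompactlyGenerated_of_wellFoundedGT
    apply realizable_square (L := L)
    intro x y hxy
    exact exists_cjp (fun x S => sup_sInf_eq) hxy

end Pool.Agent.Results.MP_81b71e_al.DiagonalPair
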