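import Pool.Agent.Lib.MP_81b71e_al.Diamonds

/-!
# Covering diamonds of modular lattices

Let `(L, L₂)` be isomorphic to `(Qord A, Con A)` for some algebra `A` and let `L` be modular. If
`a`, `b`, `c` are three different elements which cover `z` and are covered by `m`, then `m` is the
join of `z` and a member of `L₂`, and `z` belongs to `L₂` if and only if `m` does.
-/

namespace Pool.Agent.Results.MP_81b71e_al.ModularDiamonds

open Pool.Agent.Lib.MP_81b71e_al

universe u

theorem result (L : Type u) [Lattice L] [IsModularLattice L] (L₂ : Set L)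
    (hR : Realizable L L₂) (z a b c m : L) (hza : z ⋖ a) (hzb : z ⋖ b) (hzc : z ⋖ c)
    (ham : a ⋖ m) (hbm : b ⋖ m) (hcm : c ⋖ m) (hab : a ≠ b) (hac : a ≠ c) (hbc : b ≠ c) :
    (∃ κ ∈ L₂, z ⊔ κ = m) ∧ (z ∈ L₂ ↔ m ∈ L₂) :=
  ⟨diamond hR hza hzb hzc ham hbm hcm hab hac hbc,
    bot_mem_iff hR hza hzb hzc ham hbm hcm hab hac hbc⟩

end Pool.Agent.Results.MP_81b71e_al.ModularDiamonds
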